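import Pool.Agent.Lib.MP_410da7_agNL.Spec

/-!
# `N` lines: the cones are quasi-smooth
-/

set_option autoImplicit false

namespace Pool.Agent.NL

open MvPolynomial Pool.Agent.PC

namespace QsNM

theorem support_sub {N r : ℕ} (M : Matrix (Fin r) (Fin N) ℂ) (a : Fin N → ℕ) (k : Fin r)
    (s : Fin N →₀ ℕ) (hs : s ∈ (linPoly M a k).support) :
    ∃ i, s = Finsupp.single i (a i) := by
  classical
  rw [linPoly] at hs
  have h1 := MvPolynomial.support_sum hs
  rw [Finset.mem_biUnion] at h1
  obtain ⟨i, -, hi⟩ := h1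
  refine ⟨i, ?_⟩
  rw [MvPolynomial.mem_support_iff, MvPolynomial.coeff_C_mul, MvPolynomial.coeff_X_pow] at hi
  by_contra hne
  rw [if_neg (fun h => hne h.symm), mul_zero] at hi
  exact hi rfl

theorem pderiv_lin {N r : ℕ} (M : Matrix (Fin r) (Fin N) ℂ) (a : Fin N → ℕ) (k : Fin r)
    (u : Fin N → ℂ) (l : Fin N) :
    eval u (pderiv l (linPoly M a k)) = M k l * (a l * u l ^ (a l - 1)) := by
  classical
  rw [linPoly, map_sum, map_sum, Finset.sum_eq_single l]
  · simp [Derivation.leibniz]
  · intro j _ hj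
    rw [Derivation.leibniz, Derivation.leibniz_pow, pderiv_X_of_ne hj]
    simp
  · simp

theorem eval_lin {N r : ℕ} (M : Matrix (Fin r) (Fin N) ℂ) (a : Fin N → ℕ) (k : Fin r)
    (u : Fin N → ℂ) : eval u (linPoly M a k) = ∑ i, M k i * u i ^ a i := by
  simp [linPoly]

/-- an injective enumeration of a subset of a finite set with at least `r` elements -/
theorem exists_inj {N r : ℕ} (S : Finset (Fin N)) (h : r ≤ S.card) :
    ∃ s : Fin r → Fin N, Function.Injective s ∧ ∀ j, s j ∈ S := by
  obtain ⟨T, hTS, hT⟩ := Finset.exists_subset_card_eq h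
  refine ⟨fun j => T.orderEmbOfFin hT j, (T.orderEmbOfFin hT).injective, fun j => ?_⟩
  exact hTS (Finset.orderEmbOfFin_mem T hT j)

/-- an injective enumeration of a set containing a given set with at most `r` elements -/
theorem exists_inj_superset {N r : ℕ} (S : Finset (Fin N)) (h : S.card ≤ r) (hr : r ≤ N) :
    ∃ s : Fin r → Fin N, Function.Injective s ∧ ∀ i ∈ S, ∃ j, s j = i := by
  obtain ⟨T, hST, -, hT⟩ := Finset.exists_subsuperset_card_eq (Finset.subset_univ S) h
    (by rw [Finset.card_univ, Fintype.card_fin]; exact hr)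
  refine ⟨fun j => T.orderEmbOfFin hT j, (T.orderEmbOfFin hT).injective, fun i hi => ?_⟩
  have h1 : i ∈ Set.range (T.orderEmbOfFin hT) := by
    rw [Finset.range_orderEmbOfFin]
    exact hST hi
  exact h1

end QsNM

theorem stmtQsN : StmtQsN := by
  classical
  intro N r M a hN hM ha
  have hpos : ∀ i, 0 < a i := fun i => by have := ha i; omega
  set L : ℕ := Finset.univ.lcm a with hL
  have hdvd : ∀ i, a i ∣ L := fun i => Finset.dvd_lcm (Finset.mem_univ i)
  have hL0 : 0 < L := by
    rw [Nat.pos_iff_ne_zero, hL, Ne, Finset.lcm_eq_zero_iff]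
    simp only [not_exists, not_and]
    intro i _ h
    exact (hpos i).ne' h
  have hw : ∀ i, 0 < L / a i := fun i => Nat.div_pos (Nat.le_of_dvd hL0 (hdvd i)) (hpos i)
  refine ⟨by omega, hw, ?_, ?_, ?_, ?_⟩
  · set g := Finset.univ.gcd (fun i => L / a i) with hg
    have hg1 : ∀ i, g ∣ L / a i := fun i => Finset.gcd_dvd (Finset.mem_univ i)
    let i0 : Fin N := ⟨0, by omega⟩
    have hgL : g ∣ L := (hg1 i0).trans (Nat.div_dvd_of_dvd (hdvd i0))
    have hg0 : 0 < g := Nat.pos_of_dvd_of_pos hgL hL0
    have h1 : L ∣ L / g := by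
      rw [hL]
      refine Finset.lcm_dvd fun i _ => ?_
      rw [← hL]
      obtain ⟨c, hc⟩ := hg1 i
      have h2 : L = a i * c * g := by
        rw [← Nat.div_mul_cancel (hdvd i), hc]; ring
      rw [h2, Nat.mul_div_cancel _ hg0]
      exact dvd_mul_right _ _
    have h2 : L ≤ L / g := Nat.le_of_dvd (Nat.div_pos (Nat.le_of_dvd hL0 hgL) hg0) h1
    by_contra hne
    have h3 : 2 ≤ g := by omega
    have h4 : L / g < L := Nat.div_lt_self hL0 h3
    omega
  · intro k
    rw [MvPolynomial.IsWeightedHomogeneous]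
    intro s hs
    obtain ⟨i, rfl⟩ := QsNM.support_sub M a k s (MvPolynomial.mem_support_iff.mpr hs)
    rw [Finsupp.weight_single, smul_eq_mul]
    exact Nat.mul_div_cancel' (hdvd i)
  · intro k s hs
    obtain ⟨i, rfl⟩ := QsNM.support_sub M a k s hs
    rw [Finsupp.degree_single]
    exact ha i
  · intro u hu hV
    simp only [QsNM.eval_lin] at hV
    let S : Finset (Fin N) := Finset.univ.filter fun i => u i ≠ 0
    have hS : ∀ i, i ∈ S ↔ u i ≠ 0 := fun i => by simp [S]
    have hcard : r ≤ S.card := by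
      by_contra hlt
      obtain ⟨s, hs, hs'⟩ := QsNM.exists_inj_superset (r := r) S (by omega) (by omega)
      have h1 : (M.submatrix id s).mulVec (fun j => u (s j) ^ a (s j)) = 0 := by
        funext k
        simp only [Matrix.mulVec, dotProduct, Matrix.submatrix_apply, id_eq, Pi.zero_apply]
        rw [← hV k]
        rw [← Finset.sum_image (s := Finset.univ) (g := s) (f := fun i => M k i * u i ^ a i)
          (fun x _ y _ h => hs h)]
        refine Finset.sum_subset (Finset.subset_univ _) fun i _ hi => ?_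
        have hui : u i = 0 := by
          by_contra hne
          obtain ⟨j, hj⟩ := hs' i ((hS i).mpr hne)
          exact hi (Finset.mem_image.mpr ⟨j, Finset.mem_univ j, hj⟩)
        rw [hui, zero_pow (hpos i).ne', mul_zero]
      have h2 := Matrix.eq_zero_of_mulVec_eq_zero (hM s hs) h1
      apply hu
      funext i
      by_contra hne
      obtain ⟨j, hj⟩ := hs' i ((hS i).mpr hne)
      have h3 := congrFun h2 j
      simp only [Pi.zero_apply, hj] at h3
      exact hne (eq_zero_of_pow_eq_zero h3)
    obtain ⟨s, hs, hs'⟩ := QsNM.exists_inj (r := r) S hcard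
    rw [Fintype.linearIndependent_iff]
    intro c hc
    have h1 : Matrix.vecMul c (M.submatrix id s) = 0 := by
      funext j
      have h2 := congrFun hc (s j)
      simp only [Finset.sum_apply, Pi.smul_apply, QsNM.pderiv_lin, smul_eq_mul,
        Pi.zero_apply] at h2
      simp only [Matrix.vecMul, dotProduct, Matrix.submatrix_apply, id_eq, Pi.zero_apply]
      have h3 : ∑ k, c k * (M k (s j) * (a (s j) * u (s j) ^ (a (s j) - 1))) =
          (∑ k, c k * M k (s j)) * (a (s j) * u (s j) ^ (a (s j) - 1)) := by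
        rw [Finset.sum_mul]
        exact Finset.sum_congr rfl fun k _ => by ring
      rw [h3] at h2
      rcases mul_eq_zero.mp h2 with h4 | h4
      · exact h4
      · exfalso
        rcases mul_eq_zero.mp h4 with h5 | h5
        · exact (hpos (s j)).ne' (by exact_mod_cast h5)
        · exact (hS (s j)).mp (hs' j) (eq_zero_of_pow_eq_zero h5)
    have h2 := Matrix.eq_zero_of_vecMul_eq_zero (hM s hs) h1
    intro k
    exact congrFun h2 k

end Pool.Agent.NL
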