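import Pool.Agent.Lib.MP_410da7_agNL.Spec

/-!
# `N` lines: scaling of the coordinates and change of the equations
-/

set_option autoImplicit false

namespace Pool.Agent.NL

open MvPolynomial Pool.Agent.PC Pool.Agent.Lib.MP_410da7_ag

noncomputable section

namespace ScNM

/-- the homomorphism `x_i ↦ c_i x_i` -/
def scal {N : ℕ} (c : Fin N → ℂ) : MvPolynomial (Fin N) ℂ →ₐ[ℂ] MvPolynomial (Fin N) ℂ :=
  aeval fun i => C (c i) * X i

theorem scal_scal {N : ℕ} (c c' : Fin N → ℂ) (h : ∀ i, c i * c' i = 1)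
    (P : MvPolynomial (Fin N) ℂ) : scal c (scal c' P) = P := by
  have h1 : (scal c).comp (scal c') = AlgHom.id ℂ _ := by
    apply MvPolynomial.algHom_ext
    intro i
    simp only [AlgHom.comp_apply, scal, aeval_X, map_mul, AlgHom.id_apply]
    rw [MvPolynomial.algHom_C, ← mul_assoc]
    have : (algebraMap ℂ (MvPolynomial (Fin N) ℂ)) (c' i) * C (c i) = 1 := by
      rw [MvPolynomial.algebraMap_eq, ← C_mul, mul_comm, h i, C_1]
    rw [this, one_mul]
  exact congrArg (fun g => g P) h1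

theorem scal_lin {N r : ℕ} (M M' : Matrix (Fin r) (Fin N) ℂ) (B : Matrix (Fin r) (Fin r) ℂ)
    (c : Fin N → ℂ) (a : Fin N → ℕ) (h : ∀ k i, M' k i * c i ^ a i = (B * M) k i) (k : Fin r) :
    scal c (linPoly M' a k) = ∑ l, C (B k l) * linPoly M a l := by
  simp only [linPoly, scal, map_sum, map_mul, map_pow, aeval_X, Finset.mul_sum]
  rw [Finset.sum_comm]
  refine Finset.sum_congr rfl fun i _ => ?_
  have h1 : C (M' k i) * (C (c i) * X i) ^ a i =
      C (M' k i * c i ^ a i) * (X i : MvPolynomial (Fin N) ℂ) ^ a i := by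
    rw [mul_pow, C_mul, C_pow, mul_assoc]
  rw [MvPolynomial.algHom_C, MvPolynomial.algebraMap_eq, h1, h k i, Matrix.mul_apply, map_sum,
    Finset.sum_mul]
  refine Finset.sum_congr rfl fun l _ => ?_
  rw [C_mul, mul_assoc]

theorem adjoin_le {N : ℕ} {K : Type} [Field K] [Algebra ℂ K] (x : Fin N → K) (c : Fin N → ℂ)
    (hc : ∀ i, c i ≠ 0) (i : Fin N) :
    charts (fun i => algebraMap ℂ K (c i) * x i) i ≤ charts x i := by
  unfold charts
  rw [Algebra.adjoin_le_iff]
  rintro _ (⟨j, rfl⟩ | h)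
  · exact mul_mem (Subalgebra.algebraMap_mem _ _) (Algebra.subset_adjoin (Or.inl ⟨j, rfl⟩))
  · rw [Set.mem_singleton_iff] at h
    rw [h, mul_inv, ← map_inv₀]
    exact mul_mem (Subalgebra.algebraMap_mem _ _) (Algebra.subset_adjoin (Or.inr rfl))

end ScNM

theorem stmtScN : StmtScN := by
  intro N r M M' B c a hB hc h K _ _ x hx
  let c' : Fin N → ℂ := fun i => (c i)⁻¹
  have hcc' : ∀ i, c i * c' i = 1 := fun i => mul_inv_cancel₀ (hc i)
  have hc'c : ∀ i, c' i * c i = 1 := fun i => inv_mul_cancel₀ (hc i)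
  have hae : ∀ P : MvPolynomial (Fin N) ℂ,
      aeval (fun i => algebraMap ℂ K (c i) * x i) P = aeval x (ScNM.scal c P) := by
    intro P
    have h1 : aeval (fun i => algebraMap ℂ K (c i) * x i) = (aeval x).comp (ScNM.scal c) := by
      apply MvPolynomial.algHom_ext
      intro i
      simp only [AlgHom.comp_apply, ScNM.scal, aeval_X, map_mul]
      rw [MvPolynomial.algHom_C]
    exact congrArg (fun g => g P) h1
  have hBu : B * B⁻¹ = 1 := Matrix.mul_nonsing_inv B hB
  have hBu' : B⁻¹ * B = 1 := Matrix.nonsing_inv_mul B hB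
  refine ⟨⟨?_, ?_, ?_⟩, ?_⟩
  · intro k
    rw [hae, ScNM.scal_lin M M' B c a h k, map_sum]
    refine Finset.sum_eq_zero fun l _ => ?_
    rw [map_mul, hx.zero l, mul_zero]
  · intro P hP
    rw [hae] at hP
    have h1 := hx.ker _ hP
    have h2 := Ideal.mem_map_of_mem (ScNM.scal c') h1
    rw [ScNM.scal_scal c' c hc'c, Ideal.map_span] at h2
    refine (Ideal.span_le.mpr ?_) h2
    rintro _ ⟨_, ⟨l, rfl⟩, rfl⟩
    have h3 : ∀ k, ScNM.scal c' (linPoly M a k) =
        ∑ l, C (B⁻¹ k l) * linPoly M' a l := by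
      intro k
      refine ScNM.scal_lin M' M B⁻¹ c' a ?_ k
      intro k i
      have h4 : M k i = (B⁻¹ * (B * M)) k i := by
        rw [← Matrix.mul_assoc, hBu', Matrix.one_mul]
      rw [h4, Matrix.mul_apply, Matrix.mul_apply, Finset.sum_mul]
      refine Finset.sum_congr rfl fun l _ => ?_
      rw [← h l i, mul_assoc, mul_assoc, ← mul_pow, hcc' i, one_pow, mul_one]
    change ScNM.scal c' (linPoly M a l) ∈ Ideal.span (Set.range (linPoly M' a))
    rw [h3]
    exact Ideal.sum_mem _ fun j _ => Ideal.mul_mem_left _ _ (Ideal.subset_span ⟨j, rfl⟩)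
  · intro b
    obtain ⟨P, Q, hQ, h1⟩ := hx.gen b
    refine ⟨ScNM.scal c' P, ScNM.scal c' Q, ?_, ?_⟩
    · rw [hae, ScNM.scal_scal c c' hcc']
      exact hQ
    · rw [hae, hae, ScNM.scal_scal c c' hcc', ScNM.scal_scal c c' hcc']
      exact h1
  · have hch : ∀ i, charts (fun i => algebraMap ℂ K (c i) * x i) i = charts x i := by
      intro i
      refine le_antisymm (ScNM.adjoin_le x c hc i) ?_
      have h1 := ScNM.adjoin_le (fun i => algebraMap ℂ K (c i) * x i) c'
        (fun i => inv_ne_zero (hc i)) i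
      have h2 : (fun i => algebraMap ℂ K (c' i) * (algebraMap ℂ K (c i) * x i)) = x := by
        funext i
        rw [← mul_assoc, ← map_mul, hc'c i, map_one, one_mul]
      rwa [h2] at h1
    rw [show charts (fun i => algebraMap ℂ K (c i) * x i) = charts x from funext hch]
    exact id

end

end Pool.Agent.NL
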