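import Pool.Agent.Lib.MP_410da7_agNL.Defs
import Pool.Agent.Lib.MP_410da7_agBP.SpecC

/-!
# `N` lines in general position: statements and proofs of the modules

GOAL: for `N = r + 3`, `GenPos M`, `2 ≤ a_i`: `X` is `𝔸¹`-uniruled iff `κ̄(X) = -∞` iff `∑ 1/a_i > r`.
`N = 4` is `Pool.Agent.BP` (four lines), `N = 5` needs in addition the block of helper5 (`StmtFive`).

Every module: file `Pool/Agent/Lib/MP_410da7_agNL/<Name>.lean`, importing
`Pool.Agent.Lib.MP_410da7_agNL.Spec`, private names in `namespace Pool.Agent.NL.<Name>M`, final theorem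
`Pool.Agent.NL.stmt<Name> : … → Stmt<Name>`; the other statements it uses are hypotheses.
-/

set_option autoImplicit false

namespace Pool.Agent.NL

open MvPolynomial Pool.Agent.PC Pool.Agent.BP Pool.Agent.Lib.MP_410da7_ag

noncomputable section

/-- QSN (120 lines; compare `Pool/Agent/Lib/MP_410da7_agBP/Qs.lean`, the case of one equation). The cone is
quasi-smooth.
PROOF. `L = lcm` of the `a_i`, `w_i = L / a_i > 0`; `a_i w_i = L`. `gcd`: see `Qs.lean` (it needs `N > 0`). Smoothness: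
let `u ≠ 0`, `∑_i M_{k i} u_i^(a_i) = 0` for all `k`, and `∑_k c_k M_{k l} a_l u_l^(a_l - 1) = 0` for all `l`. Let
`S = {l : u_l ≠ 0}`; for `l ∈ S`: `∑_k c_k M_{k l} = 0`. (i) `|S| ≥ r`: otherwise enlarge `S` to a set `S'` with
`r` elements (`r ≤ N`), enumerate it by an injective `s : Fin r → Fin N`; the vector `v_j = u_{s j}^(a_{s j})` is not zero
and `M.submatrix id s *ᵥ v = 0` (the other `u_i` are zero), against `GenPos`. (ii) so there is an injective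
`s : Fin r → Fin N` with values in `S`, and `c ᵥ* M.submatrix id s = 0`, hence `c = 0`
(`Matrix.eq_zero_of_mulVec_eq_zero`, `Matrix.eq_zero_of_vecMul_eq_zero`). -/
def StmtQsN : Prop := ∀ (N r : ℕ) (M : Matrix (Fin r) (Fin N) ℂ) (a : Fin N → ℕ), N = r + 3 →
  GenPos M → (∀ i, 2 ≤ a i) →
  QuasiSmooth (fun i => Finset.univ.lcm a / a i) (fun _ : Fin r => Finset.univ.lcm a) (linPoly M a)

/-- PRN (80 lines; compare `Pool/Agent/Lib/MP_410da7_agBP/Prm.lean`). Permutation of the coordinates. -/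
def StmtPrN : Prop := ∀ (N r : ℕ) (M : Matrix (Fin r) (Fin N) ℂ) (a : Fin N → ℕ)
  (σ : Equiv.Perm (Fin N)) (K : Type) [Field K] [Algebra ℂ K] (x : Fin N → K),
  IsFunctionField (linPoly M a) x →
  IsFunctionField (linPoly (M.submatrix id σ) (a ∘ σ)) (x ∘ σ) ∧
  (GenPos M → GenPos (M.submatrix id σ)) ∧
  (A1UniruledOn (charts (x ∘ σ)) → A1UniruledOn (charts x))

/-- SCN (80 lines). Scaling of the coordinates and change of the equations.
PROOF. `B` invertible, `c_i ≠ 0`, `y_i = c_i x_i` and `M'_{k i} c_i^(a_i) = (B M)_{k i}`. The isomorphism `ρ` of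
`MvPolynomial (Fin N) ℂ`, `ρ(x_i) = c_i x_i`, satisfies `aeval y P = aeval x (ρ P)` and
`ρ(linPoly M' a k) = ∑_l B_{k l} linPoly M a l`, so `ρ` maps the ideal of the `linPoly M' a k` onto the
ideal of the `linPoly M a k` (`B` is invertible). `charts y i = charts x i` (the `c_i` are nonzero constants:
`Algebra.adjoin` of the two sets is the same). -/
def StmtScN : Prop := ∀ (N r : ℕ) (M M' : Matrix (Fin r) (Fin N) ℂ) (B : Matrix (Fin r) (Fin r) ℂ)
  (c : Fin N → ℂ) (a : Fin N → ℕ), IsUnit B.det → (∀ i, c i ≠ 0) →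
  (∀ k i, M' k i * c i ^ a i = (B * M) k i) →
  ∀ (K : Type) [Field K] [Algebra ℂ K] (x : Fin N → K), IsFunctionField (linPoly M a) x →
  IsFunctionField (linPoly M' a) (fun i => algebraMap ℂ K (c i) * x i) ∧
  (A1UniruledOn (charts fun i => algebraMap ℂ K (c i) * x i) → A1UniruledOn (charts x))

/-- EXN (60 lines; compare `Pool/Agent/Lib/MP_410da7_agBP/Exv.lean`). The exponent vector for five lines of
type `(2,2,2,2,n)`.
PROOF. `e = (c,c,c,c,1)` with `2 c ≥ n`, for instance `c = n`: the weighted degree of every equation is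
`≤ 2 c`, and `4 c < 4 c + 1`. -/
def StmtExN : Prop := ∀ (M : Matrix (Fin 2) (Fin 5) ℂ) (a : Fin 5 → ℕ), (∀ i, i ≠ 4 → a i = 2) →
  2 ≤ a 4 →
  ∃ e : Fin 5 → ℕ, ∑ k, (linPoly M a k).weightedTotalDegree e < ∑ i, e i ∧ ∃ i, e i ≤ 1

/-- CLN (60 lines). Classification for five lines.
PROOF. `a_0 = a_1 = a_2 = 2`: otherwise `a_2 ≥ 3` and the sum is at most `1/2 + 1/2 + 3 · 1/3 = 2`. Then
`1/a_3 + 1/a_4 > 1/2`, so `a_3 ≤ 3`, and `a_4 ≤ 5` if `a_3 = 3`. -/
def StmtClN : Prop := ∀ a : Fin 5 → ℕ, (∀ i, 2 ≤ a i) → Monotone a → 2 < ∑ i, 1 / (a i : ℚ) →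
  (∀ i, i ≠ 4 → a i = 2) ∨
    (a 0 = 2 ∧ a 1 = 2 ∧ a 2 = 2 ∧ a 3 = 3 ∧ (a 4 = 3 ∨ a 4 = 4 ∨ a 4 = 5))

/-- FIVE: the block of helper5 (note 3333). -/
def StmtFive : Prop := ∀ (M : Matrix (Fin 2) (Fin 5) ℂ) (a : Fin 5 → ℕ), GenPos M → a 0 = 2 →
  a 1 = 2 → a 2 = 2 → a 3 = 3 → (a 4 = 3 ∨ a 4 = 4 ∨ a 4 = 5) →
  ∀ (K : Type) [Field K] [Algebra ℂ K] (x : Fin 5 → K), IsFunctionField (linPoly M a) x →
  A1UniruledOn (charts x)

/-- UNI (150 lines, uses everything). `𝔸¹`-uniruledness if `∑ 1/a_i > r`.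
PROOF. `hPC` is the theorem of `Pool/Agent/Lib/MP_410da7_ag/Moved/PuncturedCones.lean`
(`Pool.Agent.Lib.MP_410da7_ag.Moved.PuncturedCones.result`, import it) with `StmtQsN`. `r = 0`: `e = (1,1,1)` (an empty
sum of degrees). `r = 1`: the entries `m_i` of `M` are nonzero (`GenPos`, `1 × 1` minors; `Matrix.det_fin_one`);
`StmtScN` with `B = 1`, `c_i^(a_i) = m_i` (`IsAlgClosed.exists_pow_nat_eq`), `M' = (1,1,1,1)`, then
`linPoly M' a = fun _ => bpPoly a` and `StmtFin` (`TFAE` 3 → 1). `r = 2`: `σ = Tuple.sort a`, `StmtPrN`,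
`StmtClN` for `a ∘ σ`; first case `StmtExN` and `hPC`, second case `StmtFive`. `r ≥ 3`: `∑ 1/a_i ≤ N/2 ≤ r`, a
contradiction. -/
def StmtUni : Prop := ∀ (N r : ℕ) (M : Matrix (Fin r) (Fin N) ℂ) (a : Fin N → ℕ), N = r + 3 →
  GenPos M → (∀ i, 2 ≤ a i) → (r : ℚ) < ∑ i, 1 / (a i : ℚ) →
  ∀ (K : Type) [Field K] [Algebra ℂ K] (x : Fin N → K), IsFunctionField (linPoly M a) x →
  A1UniruledOn (charts x)

/-- FNL (100 lines, uses `StmtDim`, `StmtKod`, `StmtQsN`, `StmtUni`; compare the end of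
`Pool/Agent/Lib/MP_410da7_agBP/Fin.lean`). The final theorem.
PROOF. `1 → 2`: transcendence degree `N - r = 3` (`StmtDim`) and `logKodairaNegInfOn_of_a1UniruledOn` with
`a1UniruledOn_iff` (`Pool/Agent/Lib/MP_410da7_ag/T1Neg.lean`). `2 → 3`: `StmtKod`, since
`∑ w_i = L ∑ 1/a_i` and `∑ d_k = r L`. `3 → 1`: `StmtUni`. -/
def StmtFNL : Prop := ∀ (N r : ℕ) (M : Matrix (Fin r) (Fin N) ℂ) (a : Fin N → ℕ), N = r + 3 →
  GenPos M → (∀ i, 2 ≤ a i) →
  ∀ (K : Type) [Field K] [Algebra ℂ K] (x : Fin N → K), IsFunctionField (linPoly M a) x →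
  List.TFAE [A1UniruledOn (charts x), LogKodairaNegInfOn (charts x) 3,
    (r : ℚ) < ∑ i, 1 / (a i : ℚ)]

end

end Pool.Agent.NL
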