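import Pool.Agent.Lib.MP_410da7_agNL.Spec

/-!
# `N` lines: classification for five lines
-/

set_option autoImplicit false

namespace Pool.Agent.NL

namespace ClNM

theorem inv_le {n m : ℕ} (hm : 0 < m) (h : m ≤ n) : 1 / (n : ℚ) ≤ 1 / (m : ℚ) := by
  have h1 : (0 : ℚ) < m := by exact_mod_cast hm
  have h2 : (m : ℚ) ≤ n := by exact_mod_cast h
  exact one_div_le_one_div_of_le h1 h2

end ClNM

theorem stmtClN : StmtClN := by
  intro a ha hm hs
  rw [Fin.sum_univ_five] at hs
  have h01 : a 0 ≤ a 1 := hm (by decide)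
  have h12 : a 1 ≤ a 2 := hm (by decide)
  have h23 : a 2 ≤ a 3 := hm (by decide)
  have h34 : a 3 ≤ a 4 := hm (by decide)
  have h0 := ha 0
  have e0 := ClNM.inv_le (n := a 0) (m := 2) (by norm_num) (ha 0)
  have e1 := ClNM.inv_le (n := a 1) (m := 2) (by norm_num) (ha 1)
  have e2 := ClNM.inv_le (n := a 2) (m := 2) (by norm_num) (ha 2)
  have e3 := ClNM.inv_le (n := a 3) (m := 2) (by norm_num) (ha 3)
  have h2 : a 2 ≤ 2 := by
    by_contra hc
    have f2 := ClNM.inv_le (n := a 2) (m := 3) (by norm_num) (by omega)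
    have f3 := ClNM.inv_le (n := a 3) (m := 3) (by norm_num) (by omega)
    have f4 := ClNM.inv_le (n := a 4) (m := 3) (by norm_num) (by omega)
    norm_num at e0 e1 f2 f3 f4 hs
    linarith
  have g0 : a 0 = 2 := by omega
  have g1 : a 1 = 2 := by omega
  have g2 : a 2 = 2 := by omega
  have h3 : a 3 ≤ 3 := by
    by_contra hc
    have f3 := ClNM.inv_le (n := a 3) (m := 4) (by norm_num) (by omega)
    have f4 := ClNM.inv_le (n := a 4) (m := 4) (by norm_num) (by omega)
    norm_num at e0 e1 e2 f3 f4 hs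
    linarith
  by_cases h3' : a 3 = 2
  · left
    intro i hi
    fin_cases i
    · exact g0
    · exact g1
    · exact g2
    · exact h3'
    · exact absurd rfl hi
  · right
    have g3 : a 3 = 3 := by have := ha 3; omega
    refine ⟨g0, g1, g2, g3, ?_⟩
    have h4 : a 4 ≤ 5 := by
      by_contra hc
      have f3 := ClNM.inv_le (n := a 3) (m := 3) (by norm_num) (by omega)
      have f4 := ClNM.inv_le (n := a 4) (m := 6) (by norm_num) (by omega)
      norm_num at e0 e1 e2 f3 f4 hs
      linarith
    omega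

end Pool.Agent.NL
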