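import Pool.Agent.Lib.MP_410da7_agP.Defs
import Mathlib.LinearAlgebra.Matrix.NonsingularInverse

/-!
# `N` lines in general position: definitions

A plane `ℙ(Λ) ⊆ ℙ^(N-1)`, `Λ = ker M ⊆ ℂ^N`, is given by `r = N - 3` linear equations, and
`V = {x ∈ 𝔸^N : (x₁^(a₁),…,x_N^(a_N)) ∈ Λ}`, `X = V ∖ {0}`. The coordinates of `ℂ^N` define `N` lines in `ℙ(Λ)`, in
general position if all the maximal minors of `M` are different from zero.
-/

set_option autoImplicit false

namespace Pool.Agent.NL

noncomputable section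

/-- The equations `∑_i M_{k i} x_i^(a_i)` of `V`. -/
def linPoly {N r : ℕ} (M : Matrix (Fin r) (Fin N) ℂ) (a : Fin N → ℕ) (k : Fin r) :
    MvPolynomial (Fin N) ℂ :=
  ∑ i, MvPolynomial.C (M k i) * MvPolynomial.X i ^ a i

/-- All maximal minors of `M` are different from zero. -/
def GenPos {N r : ℕ} (M : Matrix (Fin r) (Fin N) ℂ) : Prop :=
  ∀ s : Fin r → Fin N, Function.Injective s → (M.submatrix id s).det ≠ 0

end

end Pool.Agent.NL
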