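import Pool.Agent.Lib.MP_410da7_agNL.QsN

/-!
# `N` lines: the exponent vector for five lines of type `(2,2,2,2,n)`
-/

set_option autoImplicit false

namespace Pool.Agent.NL

open MvPolynomial

theorem stmtExN : StmtExN := by
  intro M a ha h4
  let n := a 4
  let e : Fin 5 → ℕ := fun i => if i = 4 then 1 else n
  refine ⟨e, ?_, 4, by simp [e]⟩
  have hdeg : ∀ k, (linPoly M a k).weightedTotalDegree e ≤ 2 * n := by
    intro k
    rw [MvPolynomial.weightedTotalDegree]
    refine Finset.sup_le fun s hs => ?_
    obtain ⟨i, rfl⟩ := QsNM.support_sub M a k s hs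
    rw [Finsupp.weight_single]
    by_cases hi : i = 4
    · subst hi
      simp only [e, if_true, smul_eq_mul, mul_one]
      change n ≤ 2 * n
      omega
    · simp only [e, hi, if_false, smul_eq_mul, ha i hi]
      exact le_refl _
  have h1 : ∑ k, (linPoly M a k).weightedTotalDegree e ≤ 4 * n := by
    rw [Fin.sum_univ_two]
    have := hdeg 0
    have := hdeg 1
    omega
  have h2 : ∑ i, e i = 4 * n + 1 := by
    simp [e, Fin.sum_univ_five]
    ring
  omega

end Pool.Agent.NL
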