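import Pool.Agent.Lib.MP_410da7_agNL.Uni
import Pool.Agent.Lib.MP_410da7_ag.T1Neg

/-!
# `N` lines: the final theorem
-/

set_option autoImplicit false

namespace Pool.Agent.NL

open MvPolynomial Pool.Agent.PC Pool.Agent.BP Pool.Agent.Lib.MP_410da7_ag

theorem stmtFNL (hDim : StmtDim) (hKod : StmtKod) (hQs : StmtQsN) (hUni : StmtUni) : StmtFNL := by
  intro N r M a hN hM ha K _ _ x hx
  have hQ := hQs N r M a hN hM ha
  obtain ⟨-, -, n, hn, htr, -⟩ := hDim N r _ _ _ hQ K x hx
  have hn3 : n = 3 := by omega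
  subst hn3
  have hlt := UniM.lt_iff (r := r) a ha
  have hNr : N - r = 3 := by omega
  tfae_have 1 → 2 := by
    intro h
    exact logKodairaNegInfOn_of_a1UniruledOn htr _ ((a1UniruledOn_iff _).mp h)
  tfae_have 2 → 3 := by
    intro h
    by_contra hcon
    have h1 : ¬ (∑ _k : Fin r, Finset.univ.lcm a < ∑ i, Finset.univ.lcm a / a i) := by
      rw [hlt]; exact hcon
    have h2 := hKod N r _ _ _ hQ K x hx (not_lt.mp h1)
    rw [hNr] at h2
    exact h2 h
  tfae_have 3 → 1 := fun h => hUni N r M a hN hM ha h K x hx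
  tfae_finish

end Pool.Agent.NL
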