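import Pool.Agent.Lib.MP_410da7_agNL.Spec

/-!
# `N` lines: permutation of the coordinates
-/

set_option autoImplicit false

namespace Pool.Agent.NL

open MvPolynomial Pool.Agent.PC Pool.Agent.Lib.MP_410da7_ag

namespace PrNM

theorem rename_lin {N r : ℕ} (M : Matrix (Fin r) (Fin N) ℂ) (a : Fin N → ℕ)
    (σ : Equiv.Perm (Fin N)) (k : Fin r) :
    rename σ (linPoly (M.submatrix id σ) (a ∘ σ) k) = linPoly M a k := by
  rw [linPoly, linPoly, map_sum]
  simp only [map_mul, map_pow, rename_X, rename_C, Function.comp_apply, Matrix.submatrix_apply,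
    id_eq]
  exact Equiv.sum_comp σ (fun i => C (M k i) * (X i : MvPolynomial (Fin N) ℂ) ^ a i)

theorem rename_symm {N : ℕ} (σ : Equiv.Perm (Fin N)) (P : MvPolynomial (Fin N) ℂ) :
    rename σ (rename σ.symm P) = P := by
  rw [rename_rename]
  simp

theorem symm_rename {N : ℕ} (σ : Equiv.Perm (Fin N)) (P : MvPolynomial (Fin N) ℂ) :
    rename σ.symm (rename σ P) = P := by
  rw [rename_rename]
  simp

theorem charts_comp {N : ℕ} {K : Type} [Field K] [Algebra ℂ K] (x : Fin N → K)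
    (σ : Equiv.Perm (Fin N)) (i : Fin N) : charts (x ∘ σ) i = charts x (σ i) := by
  unfold charts
  rw [EquivLike.range_comp]
  rfl

end PrNM

theorem stmtPrN : StmtPrN := by
  intro N r M a σ K _ _ x hx
  have hae : ∀ P : MvPolynomial (Fin N) ℂ, aeval (x ∘ σ) P = aeval x (rename σ P) := fun P =>
    (aeval_rename _ _ _).symm
  refine ⟨⟨?_, ?_, ?_⟩, ?_, ?_⟩
  · intro k
    rw [hae, PrNM.rename_lin]
    exact hx.zero k
  · intro P hP
    rw [hae] at hP
    have h1 := hx.ker _ hP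
    have h2 := Ideal.mem_map_of_mem (rename σ.symm : MvPolynomial (Fin N) ℂ →ₐ[ℂ] _) h1
    rw [PrNM.symm_rename, Ideal.map_span, ← Set.range_comp] at h2
    have h3 : ((rename σ.symm : MvPolynomial (Fin N) ℂ →ₐ[ℂ] _) ∘ linPoly M a) =
        linPoly (M.submatrix id σ) (a ∘ σ) := by
      funext k
      rw [Function.comp_apply, ← PrNM.rename_lin M a σ k, PrNM.symm_rename]
    rwa [h3] at h2
  · intro b
    obtain ⟨P, Q, hQ, h⟩ := hx.gen b
    refine ⟨rename σ.symm P, rename σ.symm Q, ?_, ?_⟩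
    · rw [hae, PrNM.rename_symm]
      exact hQ
    · rw [hae, hae, PrNM.rename_symm, PrNM.rename_symm]
      exact h
  · intro hM s hs
    have h1 := hM (σ ∘ s) (σ.injective.comp hs)
    exact h1
  · rintro ⟨B, i1, i2, i3, h1, h2, φ, h3, h4⟩
    refine ⟨B, i1, i2, i3, h1, h2, φ, ?_, h4⟩
    intro P hP
    obtain ⟨i, hi⟩ := h3 P hP
    rw [PrNM.charts_comp] at hi
    exact ⟨σ i, hi⟩

end Pool.Agent.NL
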