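import Pool.Agent.Lib.MP_410da7_agNL.Spec
import Pool.Agent.Lib.MP_410da7_ag.Moved.PuncturedCones

/-!
# `N` lines: `𝔸¹`-uniruledness
-/

set_option autoImplicit false

namespace Pool.Agent.NL

open MvPolynomial Pool.Agent.PC Pool.Agent.BP Pool.Agent.Lib.MP_410da7_ag

namespace UniM

theorem lcm_pos {N : ℕ} (a : Fin N → ℕ) (ha : ∀ i, 2 ≤ a i) : 0 < Finset.univ.lcm a := by
  rw [Nat.pos_iff_ne_zero, Ne, Finset.lcm_eq_zero_iff]
  simp only [not_exists, not_and]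
  intro i _ h
  have := ha i
  omega

theorem sum_w {N : ℕ} (a : Fin N → ℕ) (ha : ∀ i, 2 ≤ a i) :
    ((∑ i, Finset.univ.lcm a / a i : ℕ) : ℚ) = (Finset.univ.lcm a : ℕ) * ∑ i, 1 / (a i : ℚ) := by
  rw [Nat.cast_sum, Finset.mul_sum]
  apply Finset.sum_congr rfl
  intro i _
  have h1 : a i ∣ Finset.univ.lcm a := Finset.dvd_lcm (Finset.mem_univ i)
  have h2 : (a i : ℚ) ≠ 0 := by
    have := ha i
    exact_mod_cast (by omega : a i ≠ 0)
  rw [Nat.cast_div h1 h2, mul_one_div]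

theorem lt_iff {N r : ℕ} (a : Fin N → ℕ) (ha : ∀ i, 2 ≤ a i) :
    ∑ _k : Fin r, Finset.univ.lcm a < ∑ i, Finset.univ.lcm a / a i ↔
      (r : ℚ) < ∑ i, 1 / (a i : ℚ) := by
  have h1 : (0 : ℚ) < (Finset.univ.lcm a : ℕ) := by exact_mod_cast lcm_pos a ha
  rw [Finset.sum_const, Finset.card_univ, Fintype.card_fin, smul_eq_mul, ← Nat.cast_lt (α := ℚ),
    sum_w a ha, Nat.cast_mul, mul_comm (r : ℚ)]
  exact mul_lt_mul_iff_right₀ h1

end UniM

open UniM in
theorem stmtUni (hQs : StmtQsN) (hPr : StmtPrN) (hSc : StmtScN) (hEx : StmtExN) (hCl : StmtClN)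
    (hFin : StmtFin) (hFive : StmtFive) : StmtUni := by
  intro N r M a hN hM ha hS K _ _ x hx
  have hQ := hQs N r M a hN hM ha
  have hPC := fun h => ((Moved.PuncturedCones.result hQ hx h).out 0 2).mpr ((lt_iff a ha).mpr hS)
  match r, hN, M, hM, hS, hx, hQ, hPC with
  | 0, hN, M, hM, hS, hx, hQ, hPC =>
    subst hN
    refine hPC (Or.inr (Or.inl ⟨fun _ => 1, ?_, ⟨0, by omega⟩, le_refl _⟩))
    simp
  | 1, hN, M, hM, hS, hx, hQ, hPC =>
    subst hN
    have hne : ∀ i, M 0 i ≠ 0 := by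
      intro i
      have h1 := hM (fun _ => i) (fun _ _ _ => Subsingleton.elim _ _)
      rwa [Matrix.det_fin_one] at h1
    have hroot : ∀ i, ∃ c : ℂ, c ^ a i = M 0 i := fun i =>
      IsAlgClosed.exists_pow_nat_eq (M 0 i) (by have := ha i; omega)
    choose c hc using hroot
    have hc0 : ∀ i, c i ≠ 0 := by
      intro i h0
      apply hne i
      rw [← hc i, h0, zero_pow (by have := ha i; omega)]
    obtain ⟨h1, h2⟩ := hSc 4 1 M (fun _ _ => 1) 1 c a (by simp) hc0 (by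
      intro k i
      rw [Matrix.one_mul, Subsingleton.elim k 0, one_mul]
      exact hc i) K x hx
    apply h2
    have h3 : linPoly (N := 4) (r := 1) (fun _ _ => (1 : ℂ)) a = fun _ => bpPoly a := by
      funext k
      simp [linPoly, bpPoly]
    change IsFunctionField (linPoly (N := 4) (r := 1) (fun _ _ => (1 : ℂ)) a) _ at h1
    rw [h3] at h1
    have h4 := hFin a ha K _ h1
    refine (h4.out 0 2).mpr ?_
    simpa using hS
  | 2, hN, M, hM, hS, hx, hQ, hPC =>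
    subst hN
    set σ := Tuple.sort a with hσ
    have hmono : Monotone (a ∘ σ) := Tuple.monotone_sort a
    have hb : ∀ i, 2 ≤ (a ∘ σ) i := fun i => ha _
    obtain ⟨hx', hM', hback⟩ := hPr 5 2 M a σ K x hx
    have hsum : ∑ i, 1 / (((a ∘ σ) i : ℕ) : ℚ) = ∑ i, 1 / (a i : ℚ) :=
      Equiv.sum_comp σ (fun i => 1 / (a i : ℚ))
    have hS' : (2 : ℚ) < ∑ i, 1 / (((a ∘ σ) i : ℕ) : ℚ) := by
      rw [hsum]
      simpa using hS
    apply hback
    rcases hCl (a ∘ σ) hb hmono hS' with h | ⟨h0, h1, h2, h3, h4⟩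
    · obtain ⟨e, he, he'⟩ := hEx (M.submatrix id σ) (a ∘ σ) h (hb 4)
      have hQ' := hQs 5 2 (M.submatrix id σ) (a ∘ σ) rfl (hM' hM) hb
      refine ((Moved.PuncturedCones.result hQ' hx' (Or.inr (Or.inl ⟨e, he, he'⟩))).out 0 2).mpr
        ((lt_iff (a ∘ σ) hb).mpr ?_)
      exact_mod_cast hS'
    · exact hFive (M.submatrix id σ) (a ∘ σ) (hM' hM) h0 h1 h2 h3 h4 K (x ∘ σ) hx'
  | r + 3, hN, M, hM, hS, hx, hQ, hPC =>
    exfalso
    have h1 : ∀ i ∈ (Finset.univ : Finset (Fin N)), 1 / (a i : ℚ) ≤ 1 / 2 := by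
      intro i _
      have h2 : (2 : ℚ) ≤ a i := by exact_mod_cast ha i
      exact one_div_le_one_div_of_le (by norm_num) h2
    have h2 := Finset.sum_le_sum h1
    rw [Finset.sum_const, Finset.card_univ, Fintype.card_fin, nsmul_eq_mul] at h2
    have hN' : (N : ℚ) = r + 3 + 3 := by rw [hN]; push_cast; ring
    rw [hN'] at h2
    push_cast at hS
    have h3 := lt_of_lt_of_le hS h2
    have h4 : (0 : ℚ) ≤ r := Nat.cast_nonneg r
    linarith

end Pool.Agent.NL
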